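import Pool.Agent.Q331.FC.Asm
import Pool.Agent.Q331.FC.TaskChain
import Pool.Agent.Q331.FC.TaskEnt
import Pool.Agent.Q331.FC.TaskPath
import Pool.Agent.Q331.FC.TaskPres
import Pool.Agent.Q331.FC.TaskCyl
import Pool.Agent.Q331.FC.Equi331
import Pool.Agent.Q331.FC.TaskLaw
import Pool.Agent.Q331.FC.TaskKey
import Pool.Agent.Q331.FC.TaskUnion
import Pool.Agent.Q331.FC.TaskPos
import Pool.Agent.Q331.FC.TaskTail
import Pool.Agent.Q331.FC.TaskNeg
import Pool.Agent.Q331.FC.TaskInt
import Pool.Agent.Q331.FC.TaskSn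
import Pool.Agent.Q331.FC.TaskAbs
import Pool.Agent.Q331.FC.TaskMart
import Pool.Agent.Q331.FC.TaskZero
import Pool.Agent.Q331.FC.TaskEnd

/-! MP_207c40_pr, Q1: the golden mean Markov chain is not a finitary factor with exponentially
tailed coding window of any iid process of the same entropy. -/

set_option autoImplicit false

namespace Pool.Agent.Results.MP_207c40_pr.NoEqualEntropyCoding

open MeasureTheory Pool.Agent.Q331.FC

theorem result :
    ∃ (P : Matrix (Fin 2) (Fin 2) ℝ) (π : Fin 2 → ℝ), IsChain P π ∧ ExpReturn P ∧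
      ∀ (E : Type) [MeasurableSpace E] [MeasurableSingletonClass E] (ν : Measure E)
        [IsProbabilityMeasure ν], HasEntropy ν (chainEntropy P π) →
        ∀ (φ : (ℤ → E) → ℤ → Fin 2) (R : (ℤ → E) → ℕ), IsFactor ν P π φ → IsWindow ν φ R →
          ¬ ExpTail ν R :=
  assemble TaskChain.main TaskEnt.main TaskPath.main TaskPres.main TaskCyl.main Equi331.main
    TaskLaw.main TaskKey.main TaskUnion.main' TaskPos.main TaskTail.main TaskNeg.main TaskInt.main
    TaskSn.main TaskAbs.main TaskMart.main TaskZero.main TaskEnd.main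

end Pool.Agent.Results.MP_207c40_pr.NoEqualEntropyCoding
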